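import Pool.Agent.Q177.AC.Stm

set_option autoImplicit false

/-!
# Project AC, job RES: the residue spaces
-/

namespace Pool.Agent.Q162.AC

open Filter Topology
open Pool.Agent.Q177.AC

noncomputable section

/-- the number of digits -/
def kd (r : Scales) (i : ℕ) : ℕ := ⌊√(r.r i)⌋₊

/-- the digits sum -/
def Ad (r : Scales) (a : ℕ → Bool) (i : ℕ) : ℕ :=
  ∑ l ∈ (Finset.range (kd r i)).filter (fun l => a l = true), 2 ^ l

theorem Ad_lt (r : Scales) (a : ℕ → Bool) (i : ℕ) : Ad r a i < 2 ^ kd r i := by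
  unfold Ad
  apply Nat.geomSum_lt le_rfl
  intro k hk
  rw [Finset.mem_filter, Finset.mem_range] at hk
  exact hk.1

theorem Ad_ne {r : Scales} {a b : ℕ → Bool} {l : ℕ} (h : a l ≠ b l) {i : ℕ} (hl : l < kd r i) :
    Ad r a i ≠ Ad r b i := by
  intro h1
  have h2 := Finset.geomSum_injective (n := 2) le_rfl h1
  have h3 : l ∈ (Finset.range (kd r i)).filter (fun l => a l = true) ↔
      l ∈ (Finset.range (kd r i)).filter (fun l => b l = true) := by rw [h2]
  rw [Finset.mem_filter, Finset.mem_filter, Finset.mem_range] at h3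
  apply h
  cases ha : a l <;> cases hb : b l <;> simp_all

theorem kd_le (r : Scales) (i : ℕ) : (kd r i : ℝ) ≤ √(r.r i) := Nat.floor_le (Real.sqrt_nonneg _)

theorem kd_top (r : Scales) : Tendsto (kd r) atTop atTop := by
  unfold kd
  exact tendsto_nat_floor_atTop.comp (Real.tendsto_sqrt_atTop.comp r.tends)

theorem ex_lim (r : Scales) : Tendsto (fun i => ((kd r i : ℝ) + 1) / r.r i) atTop (𝓝 0) := by
  have h1 : Tendsto (fun i => 1 / √(r.r i) + 1 / r.r i) atTop (𝓝 (0 + 0)) := by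
    refine Tendsto.add ?_ ?_
    · exact tendsto_const_nhds.div_atTop (Real.tendsto_sqrt_atTop.comp r.tends)
    · exact tendsto_const_nhds.div_atTop r.tends
  rw [add_zero] at h1
  refine squeeze_zero (fun i => ?_) (fun i => ?_) h1
  · have := r.pos i
    positivity
  · have hr := r.pos i
    have h2 := kd_le r i
    have h3 : 0 < √(r.r i) := Real.sqrt_pos.2 hr
    rw [add_div]
    have h4 : (kd r i : ℝ) / r.r i ≤ √(r.r i) / r.r i := div_le_div_of_nonneg_right h2 hr.le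
    have h5 : √(r.r i) / r.r i = 1 / √(r.r i) := by
      rw [div_eq_div_iff hr.ne' h3.ne', one_mul]
      exact Real.mul_self_sqrt hr.le
    linarith

theorem two_lim (r : Scales) (ρ : ℝ) :
    Tendsto (fun i => (2 : ℝ) ^ (((kd r i : ℝ) + 1) / r.r i) * ρ) atTop (𝓝 ρ) := by
  have h1 : Tendsto (fun i => (2 : ℝ) ^ (((kd r i : ℝ) + 1) / r.r i)) atTop (𝓝 ((2 : ℝ) ^ (0 : ℝ))) :=
    ((Real.continuousAt_const_rpow (by norm_num : (2 : ℝ) ≠ 0)).tendsto).comp (ex_lim r)
  rw [Real.rpow_zero] at h1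
  have h2 := h1.mul_const ρ
  rwa [one_mul] at h2

theorem two_lim' (r : Scales) (ρ : ℝ) :
    Tendsto (fun i => (2 : ℝ) ^ (-(((kd r i : ℝ) + 1) / r.r i)) * ρ) atTop (𝓝 ρ) := by
  have h1 : Tendsto (fun i => (2 : ℝ) ^ (-(((kd r i : ℝ) + 1) / r.r i))) atTop
      (𝓝 ((2 : ℝ) ^ (-(0 : ℝ)))) :=
    ((Real.continuousAt_const_rpow (by norm_num : (2 : ℝ) ≠ 0)).tendsto).comp (ex_lim r).neg
  rw [neg_zero, Real.rpow_zero] at h1
  have h2 := h1.mul_const ρ
  rwa [one_mul] at h2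

section

variable {K : Type} [NormedField K] [CharZero K]

/-- `(2 ^ m ρ ^ r) ^ (1 / r)` -/
theorem root_up {ρ R : ℝ} (hρ : 0 < ρ) (hR : 0 < R) (m : ℕ) :
    ((2 : ℝ) ^ m * ρ ^ R) ^ (1 / R) = (2 : ℝ) ^ ((m : ℝ) / R) * ρ := by
  rw [Real.mul_rpow (by positivity) (by positivity), ← Real.rpow_natCast, ← Real.rpow_mul (by norm_num),
    ← Real.rpow_mul hρ.le, mul_one_div, mul_one_div, div_self hR.ne', Real.rpow_one]

theorem root_down {ρ R : ℝ} (hρ : 0 < ρ) (hR : 0 < R) (m : ℕ) :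
    (((2 : ℝ) ^ m)⁻¹ * ρ ^ R) ^ (1 / R) = (2 : ℝ) ^ (-((m : ℝ) / R)) * ρ := by
  rw [Real.mul_rpow (by positivity) (by positivity), ← Real.rpow_natCast, ← Real.rpow_neg (by norm_num),
    ← Real.rpow_mul (by norm_num), ← Real.rpow_mul hρ.le, mul_one_div, mul_one_div, div_self hR.ne',
    Real.rpow_one, neg_div]

omit [CharZero K] in
theorem norm_nat_le (n : ℕ) : ‖(n : K)‖ ≤ n := by
  have := Nat.norm_cast_le (α := K) n
  rwa [norm_one, mul_one] at this

/-- the sequence -/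
def us (r : Scales) (t : ℕ → K) (a : ℕ → Bool) (i : ℕ) : K := (Ad r a i : K) * t i

omit [CharZero K] in
theorem us_le {β : ℕ → ℝ} {r : Scales} {ρ : ℝ} {t : ℕ → K}
    (ht : ∀ i, ‖t i‖ ≤ 2 * (Real.exp (β i) * ρ ^ r.r i)) (a : ℕ → Bool) (i : ℕ) :
    ‖us r t a i‖ * Real.exp (-β i) ≤ 2 ^ (kd r i + 1) * ρ ^ r.r i := by
  unfold us
  rw [norm_mul]
  have h1 : ‖(Ad r a i : K)‖ ≤ 2 ^ kd r i := by
    refine (norm_nat_le _).trans ?_
    exact_mod_cast (Ad_lt r a i).le
  have h2 : ‖(Ad r a i : K)‖ * ‖t i‖ ≤ 2 ^ kd r i * (2 * (Real.exp (β i) * ρ ^ r.r i)) :=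
    mul_le_mul h1 (ht i) (norm_nonneg _) (by positivity)
  have h3 := mul_le_mul_of_nonneg_right h2 (Real.exp_pos (-β i)).le
  refine h3.trans (le_of_eq ?_)
  have h4 : Real.exp (β i) * Real.exp (-β i) = 1 := by rw [← Real.exp_add]; simp
  rw [pow_succ]
  linear_combination 2 ^ kd r i * 2 * ρ ^ r.r i * h4

theorem us_mem {β : ℕ → ℝ} {r : Scales} {ρ : ℝ} (hρ : 0 < ρ) {t : ℕ → K}
    (ht : ∀ i, ‖t i‖ ≤ 2 * (Real.exp (β i) * ρ ^ r.r i)) (a : ℕ → Bool) : us r t a ∈ Vs K β r := by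
  refine ⟨4, Real.log 2 + Real.log ρ, fun i => (us_le ht a i).trans ?_⟩
  have hr := r.pos i
  have h1 : (kd r i : ℝ) ≤ 1 + r.r i := by
    have h2 := kd_le r i
    have h3 : √(r.r i) ≤ 1 + r.r i := by
      rw [Real.sqrt_le_left (by positivity)]
      nlinarith
    linarith
  have h2 : (2 : ℝ) ^ (kd r i + 1) ≤ 4 * Real.exp (Real.log 2 * r.r i) := by
    rw [← Real.rpow_natCast, ← Real.rpow_def_of_pos (by norm_num : (0 : ℝ) < 2)]
    have h3 : (2 : ℝ) ^ (((kd r i + 1 : ℕ) : ℝ)) ≤ 2 ^ (2 + r.r i) := by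
      apply Real.rpow_le_rpow_of_exponent_le (by norm_num)
      push_cast
      linarith
    refine h3.trans (le_of_eq ?_)
    rw [Real.rpow_add (by norm_num)]
    norm_num
  have h3 : ρ ^ r.r i = Real.exp (Real.log ρ * r.r i) := Real.rpow_def_of_pos hρ _
  rw [h3, add_mul, Real.exp_add, ← mul_assoc]
  exact mul_le_mul_of_nonneg_right h2 (Real.exp_pos _).le

end

theorem rank_aux {V : Type} [AddCommGroup V] [Module ℚ V] (Q : Submodule ℚ V)
    (hcard : Cardinal.mk Q = Cardinal.continuum) : Module.rank ℚ Q = Cardinal.continuum := by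
  have hfin := Module.Free.rank_eq_mk_of_infinite_lt ℚ Q (by
    rw [hcard]
    simpa using Cardinal.aleph0_lt_continuum)
  rw [hfin, hcard]

/-- **Job RES** -/
theorem t_RES : J_RES := by
  intro hNU K _ _ hGood ω hω β r ρ hρ
  obtain ⟨hn0, hz, hadd, hsm⟩ := hNU K ω hω β r
  have hneg : ∀ x : Vs K β r, nu ω (-x) = nu ω x := by
    intro x
    have h1 := hsm (-1) x (by norm_num)
    have h2 : ((-1 : ℚ) • x : Vs K β r) = -x := neg_one_smul ℚ x
    rwa [h2] at h1
  have hsub : ∀ x y : Vs K β r, nu ω (x - y) ≤ max (nu ω x) (nu ω y) := by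
    intro x y
    have := hadd x (-y)
    rwa [hneg, ← sub_eq_add_neg] at this
  let Vle : Submodule ℚ (Vs K β r) :=
    { carrier := {x | nu ω x ≤ ρ}
      zero_mem' := by show nu ω (0 : Vs K β r) ≤ ρ; rw [hz]; exact hρ.le
      add_mem' := fun {x y} hx hy => (hadd x y).trans (max_le hx hy)
      smul_mem' := fun c x hx => by
        by_cases hc : c = 0
        · rw [hc, zero_smul]; show nu ω (0 : Vs K β r) ≤ ρ; rw [hz]; exact hρ.le
        · show nu ω (c • x) ≤ ρ
          rw [hsm c x hc]; exact hx }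
  let Vlt : Submodule ℚ (Vs K β r) :=
    { carrier := {x | nu ω x < ρ}
      zero_mem' := by show nu ω (0 : Vs K β r) < ρ; rw [hz]; exact hρ
      add_mem' := fun {x y} hx hy => (hadd x y).trans_lt (max_lt hx hy)
      smul_mem' := fun c x hx => by
        by_cases hc : c = 0
        · rw [hc, zero_smul]; show nu ω (0 : Vs K β r) < ρ; rw [hz]; exact hρ
        · show nu ω (c • x) < ρ
          rw [hsm c x hc]; exact hx }
  obtain ⟨Q, hQ⟩ := Submodule.exists_isCompl Vlt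
  have hS1 : ∀ s ∈ Q ⊓ Vle, s ≠ 0 → nu ω s = ρ := by
    intro s hs hs0
    have h1 : nu ω s ≤ ρ := hs.2
    rcases h1.lt_or_eq with h2 | h2
    · exfalso
      apply hs0
      have h3 : s ∈ Vlt ⊓ Q := ⟨h2, hs.1⟩
      rw [hQ.inf_eq_bot] at h3
      exact (Submodule.mem_bot ℚ).1 h3
    · exact h2
  have hS2 : ∀ x : Vs K β r, nu ω x ≤ ρ → ∃ s ∈ Q ⊓ Vle, nu ω (x - s) < ρ := by
    intro x hx
    have h1 : x ∈ Vlt ⊔ Q := by rw [hQ.sup_eq_top]; trivial
    obtain ⟨v, hv, q, hq, hvq⟩ := Submodule.mem_sup.1 h1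
    have hv' : nu ω v < ρ := hv
    refine ⟨q, ⟨hq, ?_⟩, ?_⟩
    · show nu ω q ≤ ρ
      have : q = x - v := by rw [← hvq]; abel
      rw [this]
      exact (hsub x v).trans (max_le hx hv'.le)
    · have : x - q = v := by rw [← hvq]; abel
      rw [this]
      exact hv'
  refine ⟨Q ⊓ Vle, ?_, hS1, hS2⟩
  -- the sequences
  obtain ⟨hG1, hG2, hG3⟩ := hGood
  choose t ht1 ht2 using fun i : ℕ => hG2 (Real.exp (β i) * ρ ^ r.r i) (by positivity)
  set u : (ℕ → Bool) → Vs K β r := fun a => ⟨us r t a, us_mem hρ ht2 a⟩ with hu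
  have hu1 : ∀ a, nu ω (u a) ≤ ρ := by
    intro a
    refine le_of_tendsto_of_tendsto' (nu_tendsto hω (u a)) ((two_lim r ρ).mono_left hω) fun i => ?_
    have hr := r.pos i
    have h1 := us_le ht2 a i
    have h2 := Real.rpow_le_rpow (by positivity) h1 (by positivity : (0 : ℝ) ≤ 1 / r.r i)
    rw [root_up hρ hr] at h2
    push_cast at h2
    exact h2
  have hu2 : ∀ a b, a ≠ b → ρ ≤ nu ω (u a - u b) := by
    intro a b hab
    obtain ⟨l, hl⟩ := Function.ne_iff.1 hab
    have hev : ∀ᶠ i in (ω : Filter ℕ), l < kd r i := hω ((kd_top r).eventually_gt_atTop l)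
    refine le_of_tendsto_of_tendsto ((two_lim' r ρ).mono_left hω) (nu_tendsto hω (u a - u b)) ?_
    filter_upwards [hev] with i hi
    have hr := r.pos i
    set j : ℤ := (Ad r a i : ℤ) - (Ad r b i : ℤ) with hj
    have hj0 : j ≠ 0 := by
      intro h0
      apply Ad_ne hl hi
      rw [hj] at h0
      omega
    have hj1 : |(j : ℝ)| ≤ 2 ^ kd r i := by
      have h1 : |j| ≤ 2 ^ kd r i := by
        have ha := Ad_lt r a i
        have hb := Ad_lt r b i
        rw [abs_le]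
        have ha' : (Ad r a i : ℤ) < 2 ^ kd r i := by exact_mod_cast ha
        have hb' : (Ad r b i : ℤ) < 2 ^ kd r i := by exact_mod_cast hb
        constructor <;> omega
      exact_mod_cast h1
    have h1 := hG1 j hj0
    have h2 : ((2 : ℝ) ^ kd r i)⁻¹ ≤ ‖(j : K)‖ := by
      rw [inv_le_iff_one_le_mul₀ (by positivity)]
      exact h1.trans (mul_le_mul_of_nonneg_left hj1 (norm_nonneg _))
    have h3 : ‖(u a - u b).1 i‖ = ‖(j : K)‖ * ‖t i‖ := by
      have : (u a - u b).1 i = (j : K) * t i := by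
        show us r t a i - us r t b i = _
        unfold us
        rw [hj]
        push_cast
        ring
      rw [this, norm_mul]
    have h4 : ((2 : ℝ) ^ kd r i)⁻¹ * ρ ^ r.r i ≤ ‖(u a - u b).1 i‖ * Real.exp (-β i) := by
      rw [h3]
      have h5 : ((2 : ℝ) ^ kd r i)⁻¹ * (Real.exp (β i) * ρ ^ r.r i) ≤ ‖(j : K)‖ * ‖t i‖ :=
        mul_le_mul h2 (ht1 i) (by positivity) (norm_nonneg _)
      have h6 := mul_le_mul_of_nonneg_right h5 (Real.exp_pos (-β i)).le
      refine le_trans (le_of_eq ?_) h6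
      have h7 : Real.exp (β i) * Real.exp (-β i) = 1 := by rw [← Real.exp_add]; simp
      linear_combination -(((2 : ℝ) ^ kd r i)⁻¹ * ρ ^ r.r i) * h7
    have h5 := Real.rpow_le_rpow (by positivity) h4 (by positivity : (0 : ℝ) ≤ 1 / r.r i)
    rw [root_down hρ hr] at h5
    refine le_trans ?_ h5
    apply mul_le_mul_of_nonneg_right _ hρ.le
    apply Real.rpow_le_rpow_of_exponent_le (by norm_num)
    rw [neg_le_neg_iff]
    exact div_le_div_of_nonneg_right (by linarith) hr.le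
  choose s hs1 hs2 using fun a => hS2 (u a) (hu1 a)
  have hinj : Function.Injective (fun a : ℕ → Bool => (⟨s a, hs1 a⟩ : ↥(Q ⊓ Vle))) := by
    intro a b hab
    by_contra hne
    have h1 : s a = s b := congrArg Subtype.val hab
    have h2 := hu2 a b hne
    have h3 : u a - u b = (u a - s a) - (u b - s b) := by rw [h1]; abel
    rw [h3] at h2
    have h4 := (hsub (u a - s a) (u b - s b)).trans_lt (max_lt (hs2 a) (hs2 b))
    linarith
  have hlow : Cardinal.continuum ≤ Cardinal.mk ↥(Q ⊓ Vle) := by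
    have h1 := Cardinal.mk_le_of_injective hinj
    have h2 : Cardinal.mk (ℕ → Bool) = Cardinal.continuum := by simp
    rwa [h2] at h1
  have hup : Cardinal.mk ↥(Q ⊓ Vle) ≤ Cardinal.continuum := by
    have h1 : Function.Injective (fun x : ↥(Q ⊓ Vle) => (x.1.1 : ℕ → K)) := by
      intro x y h
      exact Subtype.ext (Subtype.ext h)
    have h2 := Cardinal.mk_le_of_injective h1
    refine h2.trans ?_
    have h3 : Cardinal.mk (ℕ → K) = Cardinal.mk K ^ Cardinal.aleph0 := by simp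
    rw [h3]
    calc Cardinal.mk K ^ Cardinal.aleph0 ≤ Cardinal.continuum ^ Cardinal.aleph0 :=
          Cardinal.power_le_power_right hG3
      _ = Cardinal.continuum := Cardinal.continuum_power_aleph0
  have hcard : Cardinal.mk ↥(Q ⊓ Vle) = Cardinal.continuum := le_antisymm hup hlow
  exact rank_aux _ hcard

end

end Pool.Agent.Q162.AC
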